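import Mathlib

set_option autoImplicit false

namespace Pool.Agent.Results.MP_776ebc_al.NeverVanishes

open Polynomial

/-- The free associative algebra (with unit) on two letters. -/
abbrev Free (K : Type) [Field K] : Type := FreeAlgebra K (Fin 2)

/-- The Lie subalgebra `L₀` generated by the two letters: the smallest subspace that contains
them and is closed under the bracket `ST - TS`. -/
noncomputable def L0 (K : Type) [Field K] : Submodule K (Free K) :=
  sInf {L | FreeAlgebra.ι K 0 ∈ L ∧ FreeAlgebra.ι K 1 ∈ L ∧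
    ∀ S ∈ L, ∀ T ∈ L, S * T - T * S ∈ L}

/-- The two-sided ideal generated by all `Uⁿ` with `U ∈ L₀`. For `n ≥ 1` it consists of
noncommutative polynomials without constant term, and it is the same set whether it is
generated in the algebra with unit or in the algebra without unit. -/
noncomputable def I (K : Type) [Field K] (n : ℕ) : TwoSidedIdeal (Free K) :=
  TwoSidedIdeal.span {z | ∃ U ∈ L0 K, z = U ^ n}

section ring

variable (K : Type) [Field K] (n : ℕ)

/-- `K[t]/(tⁿ)` -/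
abbrev R0 : Type := AdjoinRoot (X ^ n : K[X])

/-- the polynomial `∑ tⁱ sʲ`, `i + j = n - 1`, in `s` over `K[t]/(tⁿ)` -/
noncomputable def h : (R0 K n)[X] :=
  ∑ i ∈ Finset.range n, X ^ i * C (AdjoinRoot.root (X ^ n : K[X])) ^ (n - 1 - i)

/-- the ring `K[t,s]/(tⁿ, h)` -/
abbrev R : Type := AdjoinRoot (h K n)

/-- the class of `t` in `K[t]/(tⁿ)` -/
noncomputable abbrev t0 : R0 K n := AdjoinRoot.root (X ^ n : K[X])

/-- the class of `t` -/
noncomputable def t : R K n := AdjoinRoot.of (h K n) (t0 K n)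

/-- the class of `s` -/
noncomputable def s : R K n := AdjoinRoot.root (h K n)

lemma t0_pow : (t0 K n) ^ n = 0 := by
  have := AdjoinRoot.mk_self (f := (X ^ n : K[X]))
  rw [map_pow, AdjoinRoot.mk_X] at this
  exact this

lemma t_pow : (t K n) ^ n = 0 := by
  rw [t, ← map_pow, t0_pow, map_zero]

lemma hts : ∑ i ∈ Finset.range n, (s K n) ^ i * (t K n) ^ (n - 1 - i) = 0 := by
  have := AdjoinRoot.mk_self (f := h K n)
  have h2 : AdjoinRoot.mk (h K n) (h K n) = AdjoinRoot.mk (h K n)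
    (∑ i ∈ Finset.range n, X ^ i * C (AdjoinRoot.root (X ^ n : K[X])) ^ (n - 1 - i)) := rfl
  rw [h2, map_sum] at this
  rw [← this]
  refine Finset.sum_congr rfl fun i _ => ?_
  rw [map_mul, map_pow, map_pow, AdjoinRoot.mk_X, AdjoinRoot.mk_C]
  rfl

lemma s_pow : (s K n) ^ n = 0 := by
  have h1 := Commute.mul_geom_sum₂ (Commute.all (s K n) (t K n)) n
  rw [hts, mul_zero, t_pow, sub_zero] at h1
  exact h1.symm

lemma nontriv0 (hn : 1 ≤ n) : Nontrivial (R0 K n) := by
  apply AdjoinRoot.nontrivial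
  rw [degree_X_pow]
  have : (n : WithBot ℕ) ≠ 0 := by
    rw [Ne, Nat.cast_eq_zero]
    omega
  exact this

lemma h_eq (m : ℕ) : h K (m + 1) = X ^ m +
    ∑ i ∈ Finset.range m, X ^ i * C (t0 K (m + 1)) ^ (m - i) := by
  rw [h, Finset.sum_range_succ]
  simp only [Nat.add_sub_cancel, Nat.sub_self, pow_zero, mul_one]
  rw [add_comm (Finset.sum _ _)]

lemma low_degree (m : ℕ) :
    (∑ i ∈ Finset.range m, X ^ i * C (t0 K (m + 1)) ^ (m - i) : (R0 K (m + 1))[X]).degree < m := by
  refine lt_of_le_of_lt (degree_sum_le _ _) ?_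
  rw [Finset.sup_lt_iff (by exact_mod_cast WithBot.bot_lt_coe m)]
  intro i hi
  rw [Finset.mem_range] at hi
  rw [← C_pow, X_pow_mul_C]
  exact lt_of_le_of_lt (degree_C_mul_X_pow_le _ _) (by exact_mod_cast hi)

lemma h_monic (m : ℕ) : (h K (m + 1)).Monic := by
  rw [h_eq]
  exact monic_X_pow_add (low_degree K m)

lemma h_natDegree (m : ℕ) (hm : 1 ≤ m) : (h K (m + 1)).natDegree = m := by
  have := nontriv0 K (m + 1) (by omega)
  rw [h_eq]
  rw [natDegree_add_eq_left_of_degree_lt, natDegree_X_pow]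
  rw [degree_X_pow]
  exact low_degree K m

lemma t0_ne (m : ℕ) : (t0 K (m + 1)) ^ m ≠ 0 := by
  have := AdjoinRoot.mk_ne_zero_of_natDegree_lt (f := (X ^ (m + 1) : K[X])) (monic_X_pow _)
    (g := X ^ m) (pow_ne_zero _ X_ne_zero) (by rw [natDegree_X_pow, natDegree_X_pow]; omega)
  rw [map_pow, AdjoinRoot.mk_X] at this
  exact this

lemma ts_ne (m : ℕ) : (t K (m + 2)) ^ (m + 1) * (s K (m + 2)) ^ m ≠ 0 := by
  have hnt := nontriv0 K (m + 2) (by omega)
  have h0 : (C ((t0 K (m + 2)) ^ (m + 1)) * X ^ m : (R0 K (m + 2))[X]) ≠ 0 := by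
    intro h1
    have h2 := congrArg (fun p => coeff p m) h1
    simp only [coeff_C_mul, coeff_X_pow, if_true, mul_one, coeff_zero] at h2
    exact t0_ne K (m + 1) h2
  have := AdjoinRoot.mk_ne_zero_of_natDegree_lt (f := h K (m + 2)) (h_monic K (m + 1))
    (g := C ((t0 K (m + 2)) ^ (m + 1)) * X ^ m) h0 (by
      rw [h_natDegree K (m + 1) (by omega)]
      refine lt_of_le_of_lt (natDegree_C_mul_le _ _) ?_
      exact lt_of_le_of_lt (natDegree_X_pow_le _) (by omega))
  rw [map_mul, AdjoinRoot.mk_C, map_pow, map_pow, AdjoinRoot.mk_X] at this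
  exact this

/-- the matrix ring in which the algebra is represented -/
abbrev Mat : Type := Matrix (Fin 2) (Fin 2) (R K n)

/-- the representation -/
noncomputable def rep : Free K →ₐ[K] Mat K n :=
  FreeAlgebra.lift K ![!![t K n, 0; 0, s K n], !![t K n, 1; 0, s K n]]

/-- the image of the Lie algebra lies in this subspace -/
def Lset : Submodule K (Mat K n) where
  carrier := {M | ∃ (a : K) (g : R K n), M = !![a • t K n, g; 0, a • s K n]}
  zero_mem' := ⟨0, 0, by ext i j; fin_cases i <;> fin_cases j <;> simp⟩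
  add_mem' := by
    rintro _ _ ⟨a, g, rfl⟩ ⟨b, g', rfl⟩
    refine ⟨a + b, g + g', ?_⟩
    ext i j
    fin_cases i <;> fin_cases j <;> simp [add_smul]
  smul_mem' := by
    rintro c _ ⟨a, g, rfl⟩
    refine ⟨c * a, c • g, ?_⟩
    ext i j
    fin_cases i <;> fin_cases j <;> simp [mul_smul]

lemma Lset_bracket (M N : Mat K n) (hM : M ∈ Lset K n) (hN : N ∈ Lset K n) :
    M * N - N * M ∈ Lset K n := by
  obtain ⟨a, g, rfl⟩ := hM
  obtain ⟨b, g', rfl⟩ := hN
  refine ⟨0, (a • t K n) * g' + g * (b • s K n) - ((b • t K n) * g + g' * (a • s K n)), ?_⟩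
  ext i j
  fin_cases i <;> fin_cases j <;> simp [smul_smul, mul_comm]

lemma rep_L0 (U : Free K) (hU : U ∈ L0 K) : rep K n U ∈ Lset K n := by
  have h1 : L0 K ≤ (Lset K n).comap (rep K n).toLinearMap := by
    apply sInf_le
    refine ⟨?_, ?_, ?_⟩
    · refine ⟨1, 0, ?_⟩
      simp [rep]
    · refine ⟨1, 1, ?_⟩
      simp [rep]
    · intro S hS T hT
      have := Lset_bracket K n _ _ hS hT
      rw [Submodule.mem_comap]
      simpa using this
  exact h1 hU

lemma upper_pow (p q g : R K n) (m : ℕ) :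
    (!![p, g; 0, q] : Mat K n) ^ m =
      !![p ^ m, g * ∑ i ∈ Finset.range m, q ^ i * p ^ (m - 1 - i); 0, q ^ m] := by
  induction m with
  | zero => ext i j; fin_cases i <;> fin_cases j <;> simp
  | succ m ih =>
    rw [pow_succ', ih]
    have key : ∑ i ∈ Finset.range (m + 1), q ^ i * p ^ (m + 1 - 1 - i) =
        p * (∑ i ∈ Finset.range m, q ^ i * p ^ (m - 1 - i)) + q ^ m := by
      rw [Finset.sum_range_succ, Finset.mul_sum]
      congr 1
      · refine Finset.sum_congr rfl fun i hi => ?_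
        rw [Finset.mem_range] at hi
        have : m + 1 - 1 - i = (m - 1 - i) + 1 := by omega
        rw [this, pow_succ]
        ring
      · simp
    rw [key]
    ext i j
    fin_cases i <;> fin_cases j <;> simp [Matrix.mul_apply, Fin.sum_univ_two, pow_succ]
    · ring
    · ring
    · ring

lemma Lset_pow (hn : 1 ≤ n) (M : Mat K n) (hM : M ∈ Lset K n) : M ^ n = 0 := by
  obtain ⟨a, g, rfl⟩ := hM
  rw [upper_pow, _root_.smul_pow, _root_.smul_pow, t_pow, s_pow]
  have : ∑ i ∈ Finset.range n, (a • s K n) ^ i * (a • t K n) ^ (n - 1 - i) = 0 := by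
    have h1 : ∀ i ∈ Finset.range n, (a • s K n) ^ i * (a • t K n) ^ (n - 1 - i) =
        a ^ (n - 1) • ((s K n) ^ i * (t K n) ^ (n - 1 - i)) := by
      intro i hi
      rw [Finset.mem_range] at hi
      rw [_root_.smul_pow, _root_.smul_pow, smul_mul_smul_comm, ← pow_add]
      congr 2
      omega
    rw [Finset.sum_congr rfl h1, ← Finset.smul_sum, hts, smul_zero]
  rw [this]
  ext i j
  fin_cases i <;> fin_cases j <;> simp

lemma I_le (hn : 1 ≤ n) : ∀ z ∈ I K n, rep K n z = 0 := by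
  have h1 : I K n ≤ TwoSidedIdeal.ker (rep K n) := by
    rw [I, TwoSidedIdeal.span_le]
    rintro _ ⟨U, hU, rfl⟩
    change U ^ n ∈ TwoSidedIdeal.ker (rep K n)
    rw [TwoSidedIdeal.mem_ker, map_pow]
    exact Lset_pow K n hn _ (rep_L0 K n U hU)
  intro z hz
  exact (TwoSidedIdeal.mem_ker _).1 (h1 hz)

end ring

/-- For every `n ≥ 2` and every field `K`, the monomial `X^(n-1) Y^(n-1)`, a product of `2n - 2`
elements, is nonzero in `A = K⟨X,Y⟩⁺ / (Uⁿ : U ∈ L₀)`. -/
theorem result (n : ℕ) (hn : 2 ≤ n) (K : Type) [Field K] :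
    (FreeAlgebra.ι K (0 : Fin 2)) ^ (n - 1) * (FreeAlgebra.ι K (1 : Fin 2)) ^ (n - 1) ∉ I K n := by
  obtain ⟨m, rfl⟩ : ∃ m, n = m + 2 := ⟨n - 2, by omega⟩
  intro hmem
  have h1 := I_le K (m + 2) (by omega) _ hmem
  have hm : m + 2 - 1 = m + 1 := rfl
  rw [map_mul, map_pow, map_pow, hm] at h1
  have e0 : rep K (m + 2) (FreeAlgebra.ι K 0) = !![t K (m + 2), 0; 0, s K (m + 2)] := by
    simp [rep]
  have e1 : rep K (m + 2) (FreeAlgebra.ι K 1) = !![t K (m + 2), 1; 0, s K (m + 2)] := by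
    simp [rep]
  rw [e0, e1, upper_pow, upper_pow] at h1
  have h2 := congrFun (congrFun h1 0) 1
  simp only [Matrix.mul_apply, Fin.sum_univ_two, Matrix.of_apply, Matrix.cons_val_zero,
    Matrix.cons_val_one, zero_mul, add_zero, one_mul, Matrix.zero_apply] at h2
  have h3 : t K (m + 2) ^ (m + 1) * ∑ i ∈ Finset.range (m + 1),
      s K (m + 2) ^ i * t K (m + 2) ^ (m + 1 - 1 - i) =
      t K (m + 2) ^ (m + 1) * s K (m + 2) ^ m := by
    rw [Finset.sum_range_succ, mul_add, Finset.mul_sum]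
    have h4 : ∀ i ∈ Finset.range m, t K (m + 2) ^ (m + 1) *
        (s K (m + 2) ^ i * t K (m + 2) ^ (m + 1 - 1 - i)) = 0 := by
      intro i hi
      rw [Finset.mem_range] at hi
      have h5 : t K (m + 2) ^ (m + 1) * t K (m + 2) ^ (m + 1 - 1 - i) = 0 := by
        rw [← pow_add]
        have h6 : m + 1 + (m + 1 - 1 - i) = (m + 2) + (m - 1 - i) := by omega
        rw [h6, pow_add, t_pow, zero_mul]
      rw [mul_left_comm, h5, mul_zero]
    rw [Finset.sum_eq_zero h4, zero_add]
    simp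
  rw [h3] at h2
  exact ts_ne K m h2

end Pool.Agent.Results.MP_776ebc_al.NeverVanishes
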